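import Pool.Agent.BEF.Stmts

/-!
# BEF, row DFL: linearity of the derivatives
-/

set_option autoImplicit false

namespace Pool.Agent.BEF.H88

open Pool.Agent.BEF Set Filter Topology

/-- DFL -/
theorem dfl (gli : GliStmt) (gdv : GdvStmt) : DflStmt := by
  intro κ _ M M' _ _ _ _ T d d' P P' ω F F' hP hP'
  obtain ⟨_, h1⟩ := gdv κ M d P
  obtain ⟨_, h2⟩ := gdv κ M d' P'
  obtain ⟨a1, a2, a3, a4, _⟩ := h1 hP
  obtain ⟨b1, b2, b3, b4, _⟩ := h2 hP'
  have e1 : dp (P + P') = dp P + dp P' := by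
    funext ψ z
    exact ((a3 ψ z).add (b3 ψ z)).deriv
  have e2 : dv F (P + P') = dv F P + dv F P' := by
    funext ψ z
    show fderiv ℝ (P ψ + P' ψ) z (vf F z) = fderiv ℝ (P ψ) z (vf F z) + fderiv ℝ (P' ψ) z (vf F z)
    rw [fderiv_add (a4 ψ z) (b4 ψ z)]
    rfl
  have e4 : dv (F + F') P = dv F P + dv F' P := by
    funext ψ z
    have h : vf (F + F') z = vf F z + vf F' z := by
      funext i
      simp [vf]
    show fderiv ℝ (P ψ) z (vf (F + F') z) = fderiv ℝ (P ψ) z (vf F z) + fderiv ℝ (P ψ) z (vf F' z)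
    rw [h, map_add]
  have e6 : dp (fun ψ z => T (P ψ z)) = fun ψ z => T (dp P ψ z) := by
    funext ψ z
    exact (T.hasFDerivAt.comp_hasDerivAt ψ (a3 ψ z)).deriv
  have e7 : dv F (fun ψ z => T (P ψ z)) = fun ψ z => T (dv F P ψ z) := by
    funext ψ z
    have h : HasFDerivAt (fun y => T (P ψ y)) (T.comp (fderiv ℝ (P ψ) z)) z :=
      T.hasFDerivAt.comp z (a4 ψ z).hasFDerivAt
    show fderiv ℝ (fun y => T (P ψ y)) z (vf F z) = T (fderiv ℝ (P ψ) z (vf F z))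
    rw [h.fderiv]
    rfl
  refine ⟨e1, e2, ?_, e4, ?_, e6, e7, ?_, ?_⟩
  · funext ψ z
    show ω • dp (P + P') ψ z + dv F (P + P') ψ z =
      (ω • dp P ψ z + dv F P ψ z) + (ω • dp P' ψ z + dv F P' ψ z)
    rw [e1, e2]
    show ω • (dp P ψ z + dp P' ψ z) + (dv F P ψ z + dv F P' ψ z) = _
    rw [smul_add]
    abel
  · funext ψ z
    show ω • dp P ψ z + dv (F + F') P ψ z = (ω • dp P ψ z + dv F P ψ z) + dv F' P ψ z
    rw [e4]
    show ω • dp P ψ z + (dv F P ψ z + dv F' P ψ z) = _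
    abel
  · funext ψ z
    show ω • dp (fun ψ z => T (P ψ z)) ψ z + dv F (fun ψ z => T (P ψ z)) ψ z =
      T (ω • dp P ψ z + dv F P ψ z)
    rw [e6, e7, map_add, map_smul]
  · intro e hF
    have h3 : ω • dp P ∈ GE κ M d := Submodule.smul_mem _ _ a1
    have h4 : dv F P ∈ GE κ M d := (gli κ M M' T d (dv F P)).2.2.2.1 e (a2 e F hF)
    have h5 : DF ω F P = ω • dp P + dv F P := rfl
    rw [h5]
    exact Submodule.add_mem _ h3 h4

end Pool.Agent.BEF.H88
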